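import Pool.Agent.Helper36.EV.Base

/-!
# Local theory of the quintic gKdV equation in the class of smooth functions with square integrable
derivatives: the class

`HI` is the space of smooth functions `ℝ → ℝ` all of whose derivatives are square integrable. Here: it is closed
under derivatives and products, `ip u v = ∫ u v`, integration by parts, the Sobolev bound
`u x ^ 2 ≤ ∫ u ^ 2 + ∫ u' ^ 2`.
-/

namespace Pool.Agent.Helper36.KL

open Set Filter Topology MeasureTheory
open scoped ContDiff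

/-- smooth functions with all derivatives in `L²` -/
def HI : Submodule ℝ (ℝ → ℝ) where
  carrier := {u | ContDiff ℝ ∞ u ∧ ∀ k, MemLp (iteratedDeriv k u) 2 volume}
  zero_mem' := by
    refine ⟨contDiff_const, fun k => ?_⟩
    have h : iteratedDeriv k (0 : ℝ → ℝ) = 0 := by
      induction k with
      | zero => simp
      | succ k ih => rw [iteratedDeriv_succ, ih]; funext x; simp
    rw [h]
    exact MemLp.zero
  add_mem' := by
    intro u v hu hv
    refine ⟨hu.1.add hv.1, fun k => ?_⟩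
    have h : iteratedDeriv k (u + v) = iteratedDeriv k u + iteratedDeriv k v := by
      funext x
      exact iteratedDeriv_add (hu.1.contDiffAt.of_le (by exact_mod_cast le_top))
        (hv.1.contDiffAt.of_le (by exact_mod_cast le_top))
    rw [h]
    exact (hu.2 k).add (hv.2 k)
  smul_mem' := by
    intro c u hu
    refine ⟨contDiff_const.smul hu.1, fun k => ?_⟩
    have h : iteratedDeriv k (c • u) = c • iteratedDeriv k u := by
      funext x
      exact iteratedDeriv_const_smul (hu.1.contDiffAt.of_le (by exact_mod_cast le_top)) c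
    rw [h]
    exact (hu.2 k).const_smul c

theorem mem_HI {u : ℝ → ℝ} :
    u ∈ HI ↔ ContDiff ℝ ∞ u ∧ ∀ k, MemLp (iteratedDeriv k u) 2 volume := Iff.rfl

theorem contDiff_nat {u : ℝ → ℝ} (h : ContDiff ℝ ∞ u) (n : ℕ) : ContDiff ℝ n u :=
  h.of_le (by exact_mod_cast le_top)

theorem iter_add {u v : ℝ → ℝ} (hu : ContDiff ℝ ∞ u) (hv : ContDiff ℝ ∞ v) (k : ℕ) :
    iteratedDeriv k (u + v) = iteratedDeriv k u + iteratedDeriv k v := by
  funext x
  exact iteratedDeriv_add (contDiff_nat hu k).contDiffAt (contDiff_nat hv k).contDiffAt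

theorem iter_smul {u : ℝ → ℝ} (hu : ContDiff ℝ ∞ u) (c : ℝ) (k : ℕ) :
    iteratedDeriv k (c • u) = c • iteratedDeriv k u := by
  funext x
  exact iteratedDeriv_const_smul (contDiff_nat hu k).contDiffAt c

theorem contDiff_iter {u : ℝ → ℝ} (hu : ContDiff ℝ ∞ u) (k : ℕ) :
    ContDiff ℝ ∞ (iteratedDeriv k u) := by
  induction k with
  | zero => simpa using hu
  | succ k ih =>
    rw [iteratedDeriv_succ]
    exact (contDiff_infty_iff_deriv.1 ih).2

theorem hasDerivAt_iter {u : ℝ → ℝ} (hu : ContDiff ℝ ∞ u) (k : ℕ) (x : ℝ) :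
    HasDerivAt (iteratedDeriv k u) (iteratedDeriv (k + 1) u x) x := by
  rw [iteratedDeriv_succ]
  exact ((contDiff_iter hu k).differentiable (by simp)).differentiableAt.hasDerivAt

theorem iter_iter (u : ℝ → ℝ) (k l : ℕ) :
    iteratedDeriv k (iteratedDeriv l u) = iteratedDeriv (k + l) u := by
  induction k with
  | zero => simp
  | succ k ih => rw [iteratedDeriv_succ, ih, Nat.add_right_comm, ← iteratedDeriv_succ]

theorem iter_mem {u : ℝ → ℝ} (hu : u ∈ HI) (k : ℕ) : iteratedDeriv k u ∈ HI := by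
  refine ⟨contDiff_iter hu.1 k, fun l => ?_⟩
  rw [iter_iter]
  exact hu.2 _

theorem memLp {u : ℝ → ℝ} (hu : u ∈ HI) : MemLp u 2 volume := by simpa using hu.2 0

theorem int_mul {u v : ℝ → ℝ} (hu : u ∈ HI) (hv : v ∈ HI) :
    Integrable (fun x => u x * v x) := (memLp hu).integrable_mul (memLp hv)

theorem int_sq {u : ℝ → ℝ} (hu : u ∈ HI) : Integrable (fun x => u x ^ 2) :=
  (memLp hu).integrable_sq

/-- Sobolev bound -/
theorem sup_sq_le {u : ℝ → ℝ} (hu : u ∈ HI) (x : ℝ) :
    u x ^ 2 ≤ (∫ y, u y ^ 2) + ∫ y, iteratedDeriv 1 u y ^ 2 := by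
  have hd : ∀ y ∈ Iic x, HasDerivAt (fun y => u y ^ 2) (2 * (u y * iteratedDeriv 1 u y)) y := by
    intro y _
    have h1 : HasDerivAt u (iteratedDeriv 1 u y) y := by
      simpa using hasDerivAt_iter hu.1 0 y
    have h2 := h1.pow 2
    refine h2.congr_deriv ?_
    push_cast
    ring
  have hi1 := int_sq hu
  have hi2 := int_sq (iter_mem hu 1)
  have hi3 : Integrable (fun y => 2 * (u y * iteratedDeriv 1 u y)) :=
    (int_mul hu (iter_mem hu 1)).const_mul 2
  have ht := tendsto_zero_of_hasDerivAt_of_integrableOn_Iic hd hi3.integrableOn hi1.integrableOn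
  have h := integral_Iic_of_hasDerivAt_of_tendsto' hd hi3.integrableOn ht
  rw [sub_zero] at h
  rw [← h, ← integral_add hi1 hi2]
  refine (setIntegral_mono hi3.integrableOn (hi1.add hi2).integrableOn fun y => ?_).trans
    (setIntegral_le_integral (hi1.add hi2) (ae_of_all _ fun y => by
      simp only [Pi.add_apply, Pi.zero_apply]; positivity))
  simp only [Pi.add_apply]
  nlinarith [sq_nonneg (u y - iteratedDeriv 1 u y)]

theorem exists_bound {u : ℝ → ℝ} (hu : u ∈ HI) : ∃ C, ∀ x, |u x| ≤ C :=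
  ⟨Real.sqrt ((∫ y, u y ^ 2) + ∫ y, iteratedDeriv 1 u y ^ 2), fun x =>
    Real.abs_le_sqrt (sup_sq_le hu x)⟩

theorem mul_mem {u v : ℝ → ℝ} (hu : u ∈ HI) (hv : v ∈ HI) : u * v ∈ HI := by
  refine ⟨hu.1.mul hv.1, fun k => ?_⟩
  induction k generalizing u v with
  | zero =>
    obtain ⟨C, hC⟩ := exists_bound hu
    rw [iteratedDeriv_zero]
    refine MemLp.of_le_mul (c := C) (memLp hv)
      (hu.1.continuous.mul hv.1.continuous).aestronglyMeasurable (ae_of_all _ fun x => ?_)
    rw [Pi.mul_apply, norm_mul, Real.norm_eq_abs]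
    exact mul_le_mul_of_nonneg_right (hC x) (norm_nonneg _)
  | succ k ih =>
    have h1 : deriv (u * v) = iteratedDeriv 1 u * v + u * iteratedDeriv 1 v := by
      funext x
      have hu' : HasDerivAt u (iteratedDeriv 1 u x) x := by
        simpa using hasDerivAt_iter hu.1 0 x
      have hv' : HasDerivAt v (iteratedDeriv 1 v x) x := by
        simpa using hasDerivAt_iter hv.1 0 x
      rw [(hu'.mul hv').deriv]
      rfl
    have c1 : ContDiff ℝ ∞ (iteratedDeriv 1 u * v) := (iter_mem hu 1).1.mul hv.1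
    have c2 : ContDiff ℝ ∞ (u * iteratedDeriv 1 v) := hu.1.mul (iter_mem hv 1).1
    rw [iteratedDeriv_succ', h1, iter_add c1 c2]
    exact (ih (iter_mem hu 1) hv).add (ih hu (iter_mem hv 1))

theorem pow_mem {u : ℝ → ℝ} (hu : u ∈ HI) (n : ℕ) : u ^ (n + 1) ∈ HI := by
  induction n with
  | zero => simpa using hu
  | succ n ih => rw [pow_succ]; exact mul_mem ih hu

/-- integration by parts -/
theorem ibp {u v : ℝ → ℝ} (hu : u ∈ HI) (hv : v ∈ HI) :
    ∫ x, iteratedDeriv 1 u x * v x = - ∫ x, u x * iteratedDeriv 1 v x := by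
  have h1 : ∀ x, HasDerivAt (fun y => u y * v y)
      (iteratedDeriv 1 u x * v x + u x * iteratedDeriv 1 v x) x := by
    intro x
    have hu' : HasDerivAt u (iteratedDeriv 1 u x) x := by
      simpa using hasDerivAt_iter hu.1 0 x
    have hv' : HasDerivAt v (iteratedDeriv 1 v x) x := by
      simpa using hasDerivAt_iter hv.1 0 x
    exact hu'.mul hv'
  have i1 := int_mul (iter_mem hu 1) hv
  have i2 := int_mul hu (iter_mem hv 1)
  have h2 := integral_eq_zero_of_hasDerivAt_of_integrable h1 (i1.add i2) (int_mul hu hv)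
  have h3 : ∫ x, iteratedDeriv 1 u x * v x + u x * iteratedDeriv 1 v x =
      (∫ x, iteratedDeriv 1 u x * v x) + ∫ x, u x * iteratedDeriv 1 v x := integral_add i1 i2
  linarith

/-- the space `X` of the abstract theorem -/
abbrev X : Type := HI

/-- derivative of order `k` as a linear map -/
noncomputable def D (k : ℕ) : X →ₗ[ℝ] X where
  toFun u := ⟨iteratedDeriv k u.1, iter_mem u.2 k⟩
  map_add' u v := Subtype.ext (iter_add u.2.1 v.2.1 k)
  map_smul' c u := Subtype.ext (iter_smul u.2.1 c k)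

/-- `∫ u v` as a bilinear form -/
noncomputable def ip : X →ₗ[ℝ] X →ₗ[ℝ] ℝ :=
  LinearMap.mk₂ ℝ (fun u v => ∫ x, u.1 x * v.1 x)
    (fun u u' v => by
      rw [← integral_add (int_mul u.2 v.2) (int_mul u'.2 v.2)]
      refine integral_congr_ae (ae_of_all _ fun x => ?_)
      simp only [Submodule.coe_add, Pi.add_apply]
      ring)
    (fun c u v => by
      rw [smul_eq_mul, ← integral_const_mul]
      refine integral_congr_ae (ae_of_all _ fun x => ?_)
      simp only [Submodule.coe_smul, Pi.smul_apply, smul_eq_mul]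
      ring)
    (fun u v v' => by
      rw [← integral_add (int_mul u.2 v.2) (int_mul u.2 v'.2)]
      refine integral_congr_ae (ae_of_all _ fun x => ?_)
      simp only [Submodule.coe_add, Pi.add_apply]
      ring)
    (fun c u v => by
      rw [smul_eq_mul, ← integral_const_mul]
      refine integral_congr_ae (ae_of_all _ fun x => ?_)
      simp only [Submodule.coe_smul, Pi.smul_apply, smul_eq_mul]
      ring)

theorem ip_apply (u v : X) : ip u v = ∫ x, u.1 x * v.1 x := rfl

/-- the form of order `m` -/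
noncomputable def BB (m : ℕ) : X →ₗ[ℝ] X →ₗ[ℝ] ℝ :=
  ∑ k ∈ Finset.range (m + 1), ip.compl₁₂ (D k) (D k)

theorem BB_apply (m : ℕ) (u v : X) :
    BB m u v = ∑ k ∈ Finset.range (m + 1), ∫ x, iteratedDeriv k u.1 x * iteratedDeriv k v.1 x := by
  simp only [BB, LinearMap.sum_apply]
  rfl

/-- right side of the equation: `-u_xxx - (u^5)_x` -/
noncomputable def Fun (u : ℝ → ℝ) : ℝ → ℝ :=
  - iteratedDeriv 3 u - iteratedDeriv 1 (u ^ 5)

theorem Fun_mem {u : ℝ → ℝ} (hu : u ∈ HI) : Fun u ∈ HI :=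
  HI.sub_mem (HI.neg_mem (iter_mem hu 3)) (iter_mem (pow_mem hu 4) 1)

/-- right side of the equation in `X` -/
noncomputable def FX (u : X) : X := ⟨Fun u.1, Fun_mem u.2⟩

/-- A curve `f t`, `t ∈ [a, b]`, in `HI`, continuously differentiable in all the spaces `H^k` and pointwise, with
derivative `f'` (one-sided at the end points); all bounds are uniform in time. -/
structure C1 (a b : ℝ) (f f' : ℝ → ℝ → ℝ) : Prop where
  mem : ∀ t ∈ Icc a b, f t ∈ HI
  mem' : ∀ t ∈ Icc a b, f' t ∈ HI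
  bdd : ∀ k, ∃ L, ∀ t ∈ Icc a b, ∫ x, iteratedDeriv k (f t) x ^ 2 ≤ L
  bdd' : ∀ k, ∃ L, ∀ t ∈ Icc a b, ∫ x, iteratedDeriv k (f' t) x ^ 2 ≤ L
  cont : ∀ k, ContinuousOn (fun p : ℝ × ℝ => iteratedDeriv k (f p.1) p.2) (Icc a b ×ˢ univ)
  cont' : ∀ k, ContinuousOn (fun p : ℝ × ℝ => iteratedDeriv k (f' p.1) p.2) (Icc a b ×ˢ univ)
  der : ∀ k, ∀ x, ∀ t ∈ Icc a b,
    HasDerivWithinAt (fun s => iteratedDeriv k (f s) x) (iteratedDeriv k (f' t) x) (Icc a b) t
  derL2 : ∀ k, ∀ t ∈ Icc a b, ∀ δ > 0, ∃ η > 0, ∀ s ∈ Icc a b, |s - t| ≤ η →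
    ∫ x, iteratedDeriv k (f s - f t - (s - t) • f' t) x ^ 2 ≤ δ * (s - t) ^ 2

/-- a solution of `u_t = -u_xxx - (u^5)_x` on `[a, b]` in the class above -/
def IsGK (a b : ℝ) (u : ℝ → ℝ → ℝ) : Prop := C1 a b u (fun t => Fun (u t))

end Pool.Agent.Helper36.KL
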