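import Pool.Agent.Helper36.KL.Base

/-!
# Local theory of the quintic gKdV equation: the statements of the parts of the proof

See `KL/Base.lean` for `HI`, `X`, `D`, `ip`, `BB`, `Fun`, `FX`, `C1`, `IsGK`, and `EV/Base.lean` for `Scale`,
`Evo`. Below `N k u = √(BB k u u)`; by `sup_sq_le`, `|D^i u|_∞ ≤ N (i + 1) u`.
-/

namespace Pool.Agent.Helper36.KL

open Set Filter Topology MeasureTheory Pool.Agent.Helper36.EV
open scoped ContDiff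

/-- the product in `X` -/
noncomputable def mulX (u v : X) : X := ⟨u.1 * v.1, mul_mem u.2 v.2⟩

/-- the map from `X` to `L²` -/
noncomputable def iotaX : X →ₗ[ℝ] Lp ℝ 2 (volume : Measure ℝ) where
  toFun u := (memLp u.2).toLp u.1
  map_add' _ _ := rfl
  map_smul' _ _ := rfl

/-- CMP: completeness and interpolation.
PROOF. (1) By `sup_sq_le` applied to `D^k (x n - x l)`, the functions `D^k (x n)` form a uniform Cauchy sequence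
for every `k`; let `f_k` be the limit (`UniformCauchySeqOn`, or pointwise limits with uniform estimates). By
`hasDerivAt_of_tendstoUniformly` (or `..OnFilter`), `f_k' = f_{k+1}`, so `y = f_0` is smooth with
`iteratedDeriv k y = f_k` (`contDiff_infty..`/`contDiff_of_differentiable_iteratedDeriv`). Given `δ`,
`∫ (D^k (x n) - D^k (x l))^2 ≤ δ` for `n, l ≥ n0`, so by Fatou (`lintegral_liminf_le`) for `l → ∞`,
`∫ (D^k (x n) - D^k y)^2 ≤ δ` and `D^k (x n) - D^k y` is square integrable; so `y ∈ HI` and the claim follows.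
(2) `m' = 2 m`, `C = (m + 1)^2`: for `k ≤ m`, integrating by parts `k` times (`ibp`),
`∫ (D^k u)^2 = ± ∫ u D^{2k} u ≤ (∫ u^2)^{1/2} (∫ (D^{2k} u)^2)^{1/2}`. -/
def G_CMP : Prop :=
  (∀ x : ℕ → X,
    (∀ m, ∀ δ > 0, ∃ n0, ∀ n ≥ n0, ∀ k ≥ n0, BB m (x n - x k) (x n - x k) ≤ δ) →
    ∃ y, ∀ m, Tendsto (fun n => BB m (x n - y) (x n - y)) atTop (𝓝 0)) ∧
  ∀ m, ∃ m' C, ∀ x, (BB m x x) ^ 2 ≤ C * BB 0 x x * BB m' x x

/-- MOL: mollifiers. PROOF. Let `ρ` be a smooth even nonnegative bump with support in `[-1, 1]`, `∫ ρ = 1`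
(`ContDiffBump (0 : ℝ)`, `.normed`, `normed_neg`), `ρ_n x = (n+1) ρ ((n+1) x)` (or take the bump with outer radius
`1 / (n+1)` at once), and `J n h x = ∫ ρ_n (x - y) h y dy = (ρ_n ⋆ h) x`. `h ∈ L²` is locally integrable, so `J n h`
is smooth, with `D^k (J n h) = (D^k ρ_n) ⋆ h` (`HasCompactSupport.contDiff_convolution_left`,
`HasCompactSupport.hasDerivAt_convolution_left`). Young: `|(D^k ρ_n) ⋆ h|_{L²} ≤ |D^k ρ_n|_{L¹} |h|_{L²}` (pointwise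
Cauchy-Schwarz `|(g ⋆ h) x|^2 ≤ |g|_{L¹} ∫ |g (x - y)| |h y|^2 dy`, then Fubini); for `k = 0` the constant is `1`.
For `u ∈ HI`: `D^k (ρ_n ⋆ u) = ρ_n ⋆ D^k u`, so symmetry and contraction for the form `BB m` follow from those for
`∫`: `∫ (ρ_n ⋆ u) v = ∫ u (ρ_n ⋆ v)` by Fubini and evenness. Error: `(ρ_n ⋆ u - u) x = ∫ ρ_n z (u (x - z) - u x) dz`,
`(u (x - z) - u x)^2 ≤ z^2 ∫_0^1 u' (x - θ z)^2 dθ`, so
`∫ (ρ_n ⋆ u - u)^2 ≤ ∫ ρ_n z ∫ (u (x - z) - u x)^2 dx dz ≤ (n+1)^{-2} ∫ u'^2`. `ε n = 1 / (n + 1)`. -/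
def G_MOL : Prop :=
  (∃ C, ∀ x : X, ‖iotaX x‖ ^ 2 ≤ C * BB 0 x x) ∧
  ∃ (J : ℕ → Lp ℝ 2 (volume : Measure ℝ) →ₗ[ℝ] X) (ε : ℕ → ℝ),
    Tendsto ε atTop (𝓝 0) ∧
    (∀ n m, ∃ C, ∀ h, BB m (J n h) (J n h) ≤ C * ‖h‖ ^ 2) ∧
    (∀ n m x y, BB m (J n (iotaX x)) y = BB m x (J n (iotaX y))) ∧
    (∀ n m x, BB m (J n (iotaX x)) (J n (iotaX x)) ≤ BB m x x) ∧
    (∀ n m x, BB m (J n (iotaX x) - x) (J n (iotaX x) - x) ≤ (ε n) ^ 2 * BB (m + 1) x x)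

/-- PR: product estimates. (a) `k ≥ 1`: `H^k` is an algebra. (b) `k ≥ 2`: only one factor carries the highest norm.
PROOF. `D^l (u v) = ∑ binom D^i u D^j v`, `i + j = l ≤ k` (induction, or Leibniz). By symmetry let `i ≤ j`.
(a) `i < k`, so `|D^i u|_∞ ≤ N k u` and `|D^j v|_{L²} ≤ N k v` (if `i = k` then `j = 0`, `k = 0`). (b) if
`i ≤ k - 2` then `|D^i u|_∞ ≤ N (k-1) u`, `|D^j v|_{L²} ≤ N k v`; otherwise `k = 2`, `i = j = 1` and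
`|D u|_∞ ≤ N 2 u`, `|D v|_{L²} ≤ N 1 v`. -/
def G_PR : Prop :=
  (∀ k ≥ 1, ∃ C, ∀ u v : X, BB k (mulX u v) (mulX u v) ≤ C * (BB k u u * BB k v v)) ∧
  ∀ k ≥ 2, ∃ C, ∀ u v : X, BB k (mulX u v) (mulX u v) ≤
    C * (BB k u u * BB (k - 1) v v + BB (k - 1) u u * BB k v v)

/-- EN: energy estimate of order `m ≥ 3`, assuming PR.
PROOF. `(u^5)_x = 5 w u_x`, `w = u^4`. For `k ≤ m`: `∫ D^k (u_xxx) D^k u = 0` (`ibp`: it is `-∫ D^{k+2} u D^{k+1} u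
= 0`). `D^k (w u_x) = w D^{k+1} u + ∑_{j=1}^k binom D^j w D^{k+1-j} u`. `∫ w D^{k+1} u D^k u = - (1/2) ∫ w_x
(D^k u)^2 ≤ C(L) (N m u)^2`, as `|w_x|_∞ ≤ N 2 w ≤ C (N 2 u)^4` (PR (a)). For `1 ≤ j ≤ k ≤ m`:
`|D^j w D^{k+1-j} u|_{L²} ≤ C(L) (1 + N m u)`: if `k + 1 - j ≤ m - 2` then `|D^{k+1-j} u|_∞ ≤ N (m-1) u ≤ √L` and
`|D^j w|_{L²} ≤ N m w ≤ C(L) N m u` (PR (b) several times); otherwise `j = 1`, `|w_x|_∞ |D^k u|_{L²}`, or `j = 2`,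
`k = m`, `|D^2 w|_{L²} |D^{m-1} u|_∞ ≤ N 2 w * N m u`. Cauchy-Schwarz gives
`- 5 ∫ D^k (w u_x) D^k u ≤ C(L) (1 + (N m u)^2)`. -/
def G_EN : Prop := G_PR → ∀ m ≥ 3, ∀ L, ∃ C, 0 ≤ C ∧ ∀ u : X, BB (m - 1) u u ≤ L →
  BB m u (FX u) ≤ C * (1 + BB m u u)

/-- LIP: difference estimates, assuming PR. (a) With `w = u - v`: `u^5 - v^5 = w P`, `P` a polynomial in `u, v`;
`∫ w w_xxx = 0`, `- ∫ w (w P)_x = ∫ w_x w P = - (1/2) ∫ w^2 P_x ≤ (1/2) |P_x|_∞ ∫ w^2`, and `|P_x|_∞ ≤ C(L)` by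
`sup_sq_le` for `u, u_x, v, v_x`. (b) `FX u - FX v = - w_xxx - (w P)_x`,
`BB m (D 3 w) ≤ BB (m+3) w`, `BB m (D 1 (w P)) ≤ BB (m+1) (w P) ≤ C BB (m+1) w BB (m+1) P` by PR (a). -/
def G_LIP : Prop := G_PR →
  (∀ L, ∃ C, ∀ u v : X, BB 2 u u ≤ L → BB 2 v v ≤ L →
    BB 0 (u - v) (FX u - FX v) ≤ C * BB 0 (u - v) (u - v)) ∧
  ∀ m L, ∃ C, ∀ u v : X, BB (m + 3) u u ≤ L → BB (m + 3) v v ≤ L →
    BB m (FX u - FX v) (FX u - FX v) ≤ C * BB (m + 3) (u - v) (u - v)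

/-- C1R: rules for the class `C1`. PROOF. All members are estimated with the Sobolev bound `sup_sq_le` and the
Leibniz rule. (a) sum. (b) product, derivative `f' g + f g'`: `f s g s - f t g t - (s-t) (f' t g t + f t g' t) =
(f s - f t - (s-t) f' t) g s + (s-t) f' t (g s - g t) + f t (g s - g t - (s-t) g' t)`, and
`|g s - g t|_{H^k} ≤ C |s - t|` near `t` (from `derL2` and `bdd'`). (c) space derivative. (d) restriction to a
subinterval. (e) translation of time. (f) glueing at `b`: at `t = b` use both one-sided statements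
(`HasDerivWithinAt.union`). (g) integrals of products of two curves: expand and use Cauchy-Schwarz and `derL2` with
`k = 0`. -/
def G_C1R : Prop :=
  (∀ a b f f' g g', C1 a b f f' → C1 a b g g' →
    C1 a b (fun t => f t + g t) (fun t => f' t + g' t) ∧
    C1 a b (fun t => f t * g t) (fun t => f' t * g t + f t * g' t)) ∧
  (∀ a b f f' k, C1 a b f f' →
    C1 a b (fun t => iteratedDeriv k (f t)) (fun t => iteratedDeriv k (f' t))) ∧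
  (∀ a b a' b' f f', C1 a b f f' → a ≤ a' → b' ≤ b → C1 a' b' f f') ∧
  (∀ a b c f f', C1 a b f f' → C1 (a + c) (b + c) (fun t => f (t - c)) (fun t => f' (t - c))) ∧
  (∀ a b c f f' g g', a ≤ b → b ≤ c → C1 a b f f' → C1 b c g g' → f b = g b → f' b = g' b →
    C1 a c (fun t => if t ≤ b then f t else g t) (fun t => if t ≤ b then f' t else g' t)) ∧
  (∀ a b f f' g g', C1 a b f f' → C1 a b g g' → ∀ t ∈ Icc a b,
    HasDerivWithinAt (fun s => ∫ x, f s x * g s x)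
      ((∫ x, f' t x * g t x) + ∫ x, f t x * g' t x) (Icc a b) t)

/-- WT: derivative of a weighted integral. PROOF: write
`∫ p s f s g s - ∫ p t f t g t = ∫ (p s - p t) f t g t + ∫ p s (f s g s - f t g t)`. The first integral divided by
`s - t` tends to `∫ p' t f t g t` by dominated convergence (`|p s x - p t x| ≤ P |s - t|` by the mean value
theorem, `f t g t` integrable). In the second, `f s g s - f t g t = (s - t) (f' t g t + f t g' t) +` a term with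
`L¹` norm `o(s - t)` (Cauchy-Schwarz and `derL2`), `p s` is bounded by `P` and tends to `p t` pointwise. -/
def G_WT : Prop := ∀ (a b : ℝ) (f f' g g' p p' : ℝ → ℝ → ℝ) (P : ℝ), C1 a b f f' → C1 a b g g' →
  (∀ t ∈ Icc a b, ∀ x, HasDerivWithinAt (fun s => p s x) (p' t x) (Icc a b) t) →
  (∀ t ∈ Icc a b, ∀ x, |p t x| ≤ P ∧ |p' t x| ≤ P) →
  (∀ t ∈ Icc a b, Continuous (p t) ∧ Continuous (p' t)) → ∀ t ∈ Icc a b,
    HasDerivWithinAt (fun s => ∫ x, p s x * f s x * g s x)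
      ((∫ x, p' t x * f t x * g t x) + (∫ x, p t x * f' t x * g t x) +
        ∫ x, p t x * f t x * g' t x) (Icc a b) t

/-- LOC: local existence with a time depending only on a bound of the norm of order `3`, assuming the parts above
and the abstract theorem `EV.G_MAIN`.
PROOF. `S : Scale X (Lp ℝ 2)` with `B = BB`, `ι = iotaX` from CMP and MOL (choose `J`, `ε`). `Evo S`: `F t = FX`,
`s = 3`, `m0 = 0`, `m4 = 2`, `R = 2 (1 + Λ)`, `r = 1`, `C1` from EN with `m = 3`, `L = R`, `C2` from LIP (b)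
(`v = 0`, `m = 0`), `τ` so small that `exp (2 C1 τ) (1 + Λ) < 1 + R` and `C2 τ^2 < 1`, `T = τ`. `F0, F1, F2` from
LIP (b). Then `EV.G_MAIN` gives `u : ℝ → X` with `E.IsSol u`; it remains to see that `fun t => (u t).1` is `IsGK 0 τ`:
`bdd`, `derL2` are clear; the pointwise statements follow from `sup_sq_le` for `D^k (u s - u t - (s-t) FX (u t))` and
from the continuity of `D^k (u t)` in `x`. -/
def G_LOC : Prop := Pool.Agent.Helper36.EV.G_MAIN' → G_CMP → G_MOL → G_PR → G_EN → G_LIP →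
  ∀ Λ : ℝ, ∃ τ > 0, ∀ u0 : X, BB 3 u0 u0 ≤ Λ → ∃ u : ℝ → ℝ → ℝ, IsGK 0 τ u ∧ u 0 = u0.1

/-- UNQ: uniqueness, mass and energy, assuming C1R and PR, LIP.
PROOF. (a) `φ t = ∫ (u - v)^2` has the derivative `2 BB 0 (u - v) (FX u - FX v) ≤ 2 C φ` by LIP (a), the bound `L`
from `bdd`; Gronwall, `φ a = 0`; continuous functions with `∫ (u t - v t)^2 = 0` are equal. (b) `∫ u^2` has the
derivative `2 ∫ u (-u_xxx - (u^5)_x) = 0` (`∫ u u_xxx = - ∫ u_x u_xx = 0`, `∫ u (u^5)_x = - ∫ u_x u^5 = 0` as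
`∫ (u^6)_x = 0`). (c) `∫ u_x^2 / 2 - u^6 / 6` has the derivative `∫ u_x u_xt - u^5 u_t = - ∫ (u_xx + u^5) u_t =
∫ z z_x = 0`, `z = u_xx + u^5`, `u_t = - z_x`. -/
def G_UNQ : Prop := G_C1R → G_PR → G_LIP →
  (∀ a b u v, IsGK a b u → IsGK a b v → u a = v a → ∀ t ∈ Icc a b, u t = v t) ∧
  (∀ a b u, IsGK a b u → ∀ t ∈ Icc a b, ∫ x, u t x ^ 2 = ∫ x, u a x ^ 2) ∧
  (∀ a b u, IsGK a b u → ∀ t ∈ Icc a b,
    (∫ x, iteratedDeriv 1 (u t) x ^ 2 / 2 - u t x ^ 6 / 6) =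
      ∫ x, iteratedDeriv 1 (u a) x ^ 2 / 2 - u a x ^ 6 / 6)

/-- AP: a priori bound of the norm of order `3` by the `H¹` norm, assuming C1R, PR, EN.
PROOF. Write `Y = ∫ u_xx^2`, `∫ u^2 + ∫ u_x^2 ≤ K`. From the equation
`d/dt ∫ u_xx^2 = - 100 ∫ u^3 u_x u_xx^2 + 60 ∫ u u_x^5`,
`d/dt ∫ u^4 u_x^2 = - 12 ∫ u^3 u_x u_xx^2 + 6 ∫ u u_x^5 - 20 ∫ u^7 u_x^3`
(integrations by parts: `2 ∫ u_xxx (u^5)_xx = 10 ∫ u^4 u_xx u_xxx + 40 ∫ u^3 u_x^2 u_xxx`,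
`∫ u^2 u_x^3 u_xx = -(1/2) ∫ u u_x^5`), so `E = ∫ u_xx^2 - (25/3) ∫ u^4 u_x^2` has the derivative
`10 ∫ u u_x^5 + (500/3) ∫ u^7 u_x^3`. With `|u|_∞^2 ≤ K` and `|u_x|_∞^2 ≤ 2 (∫ u_x^2)^{1/2} (∫ u_xx^2)^{1/2} ≤
2 √K √Y` (from `u_x^2 (x) = 2 ∫_{-∞}^x u_x u_xx`) the right side is at most `C(K) (1 + Y)`, and
`Y ≤ E + (25/3) K^3 =: Z`, `Z ≥ 0`. Gronwall for `Z` bounds `Y` by a constant `C(K, Λ0, T)`; so
`BB 2 (u t) ≤ L`. Then EN with `m = 3`: `BB 3 u u` has the derivative `2 BB 3 u (FX u) ≤ 2 C (1 + BB 3 u u)`,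
Gronwall. (`BB k` of `u t` is a finite sum of `∫ (D^i u)^2`, differentiable by C1R.) -/
def G_AP : Prop := G_C1R → G_PR → G_EN → ∀ K Λ0 T : ℝ, ∃ Λ : ℝ, Λ0 ≤ Λ ∧
  ∀ (a b : ℝ) (u : ℝ → X), a ≤ b → b - a ≤ T → IsGK a b (fun t => (u t).1) →
    (∀ t ∈ Icc a b, (∫ x, (u t).1 x ^ 2) + ∫ x, iteratedDeriv 1 (u t).1 x ^ 2 ≤ K) →
    BB 3 (u a) (u a) ≤ Λ0 → ∀ t ∈ Icc a b, BB 3 (u t) (u t) ≤ Λ

/-- CNT: continuation under an `H¹` bound, assuming C1R, LOC, AP.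
PROOF. `Λ` from AP with `T = b - a`, `Λ0 = BB 3 u0 u0`, `τ` from LOC for this `Λ`. By induction on `j` there is a
solution with `u a = u0` on `[a, min b (a + j τ)]`: `j = 1`: LOC and translation, restriction. Step: let `u` be
the solution on `[a, c]`, `c = a + j τ < b`. By the hypothesis and AP, `BB 3 (u c) ≤ Λ`; LOC and a translation give
a solution `v` on `[c, c + τ]` with `v c = u c`; glue and restrict. -/
def G_CNT : Prop := G_C1R → (∀ Λ : ℝ, ∃ τ > 0, ∀ u0 : X, BB 3 u0 u0 ≤ Λ →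
    ∃ u : ℝ → ℝ → ℝ, IsGK 0 τ u ∧ u 0 = u0.1) →
  (∀ K Λ0 T : ℝ, ∃ Λ : ℝ, Λ0 ≤ Λ ∧
    ∀ (a b : ℝ) (u : ℝ → X), a ≤ b → b - a ≤ T → IsGK a b (fun t => (u t).1) →
      (∀ t ∈ Icc a b, (∫ x, (u t).1 x ^ 2) + ∫ x, iteratedDeriv 1 (u t).1 x ^ 2 ≤ K) →
      BB 3 (u a) (u a) ≤ Λ0 → ∀ t ∈ Icc a b, BB 3 (u t) (u t) ≤ Λ) →
  ∀ (a b K : ℝ) (u0 : ℝ → ℝ), a < b → u0 ∈ HI →
    (∀ b' ∈ Ioc a b, ∀ u, IsGK a b' u → u a = u0 → ∀ t ∈ Icc a b',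
      (∫ x, u t x ^ 2) + ∫ x, iteratedDeriv 1 (u t) x ^ 2 ≤ K) →
    ∃ u, IsGK a b u ∧ u a = u0

end Pool.Agent.Helper36.KL
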