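import Pool.Agent.Helper36.KL.Main

/-!
# Local theory of the quintic gKdV equation: the two classes of solutions agree
-/

namespace Pool.Agent.Helper36.KL

open Set Filter Topology MeasureTheory
open scoped ContDiff

/-- SG: a `SmoothSol` of project KV is in the class `IsGK` (so all the rules `C1R`, `WT`, uniqueness, mass, energy
apply to it).
PROOF. Let `w t = Fun (u t) = - deriv (flux (u t))` (`Fun_eq_flux`). `u t ∈ HI`, `w t ∈ HI` (`Fun_mem`); the bounds for
`w` are uniform (`LIP` (b) with `v = 0`: `BB k (FX u) ≤ C BB (k+3) u` for bounded `u`; `Helper71.KL.lip`), and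
`D^k (w t)` is a polynomial in the `D^j (u t)`, jointly continuous. (1) For `s, t ∈ [a, b]` and every `x`,
`(D^k (u s) x - D^k (u t) x)² ≤ |s - t| |∫_t^s (D^k (w σ) x)² dσ|` (fundamental theorem, Cauchy-Schwarz), integrate in
`x` and use Fubini (joint continuity): `∫ (D^k (u s - u t))² ≤ C |s - t|²`. (2) so by LIP (b)
`∫ (D^k (w s - w t))² ≤ C |s - t|²`. (3) the same computation for
`D^k (u s - u t - (s - t) w t) x = ∫_t^s (D^k (w σ) x - D^k (w t) x) dσ` gives `≤ C |s - t|^4`, which is `derL2`. -/
def G_SG : Prop := ∀ (a b : ℝ) (u : ℝ → ℝ → ℝ), Pool.Agent.Helper33.KV.SmoothSol u a b → IsGK a b u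

end Pool.Agent.Helper36.KL
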