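import Pool.Agent.Helper36.KL.Goals

/-!
# Local theory of the quintic gKdV equation: assembly
-/

namespace Pool.Agent.Helper36.KL

open Set MeasureTheory

/-- continuation theorem -/
def G_CONT : Prop := ∀ (a b K : ℝ) (u0 : ℝ → ℝ), a < b → u0 ∈ HI →
    (∀ b' ∈ Ioc a b, ∀ u, IsGK a b' u → u a = u0 → ∀ t ∈ Icc a b',
      (∫ x, u t x ^ 2) + ∫ x, iteratedDeriv 1 (u t) x ^ 2 ≤ K) →
    ∃ u, IsGK a b u ∧ u a = u0

theorem cont_of (main : Pool.Agent.Helper36.EV.G_MAIN') (cmp : G_CMP) (mol : G_MOL) (pr : G_PR)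
    (en : G_EN) (lip : G_LIP) (c1r : G_C1R) (loc : G_LOC) (ap : G_AP) (cnt : G_CNT) : G_CONT :=
  cnt c1r (loc main cmp mol pr en lip) (ap c1r pr en)

end Pool.Agent.Helper36.KL
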