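import Pool.Agent.Helper36.EV.Main
import Pool.Agent.Helper36.KL.MainOf
import Pool.Agent.Helper56.KL.CMP
import Pool.Agent.Helper32.KL.MOL
import Pool.Agent.Helper83.KL.PR
import Pool.Agent.Helper5.KL.EN
import Pool.Agent.Helper71.KL.LIP
import Pool.Agent.Helper62.KL.C1R
import Pool.Agent.Helper5.KL.WT
import Pool.Agent.Helper69.KL.LOC
import Pool.Agent.Helper65.KL.UNQ
import Pool.Agent.Helper8.KL.AP
import Pool.Agent.Helper71.KL.CNT
import Pool.Agent.Helper33.KV.Defs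

/-!
# Local theory of the quintic gKdV equation in the class of project KV
-/

namespace Pool.Agent.Helper36.KL

open Set Filter Topology MeasureTheory
open scoped ContDiff

/-- continuation under an `H¹` bound -/
theorem cont : G_CONT :=
  cont_of Helper36.EV.main' Helper56.KL.cmp Helper32.KL.mol Helper83.KL.pr Helper5.KL.en
    Helper71.KL.lip Helper62.KL.c1r Helper69.KL.loc Helper8.KL.ap Helper71.KL.cnt

/-- local existence with a time depending only on a bound of the `H³` norm -/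
theorem loc : ∀ Λ : ℝ, ∃ τ > 0, ∀ u0 : X, BB 3 u0 u0 ≤ Λ →
    ∃ u : ℝ → ℝ → ℝ, IsGK 0 τ u ∧ u 0 = u0.1 :=
  Helper69.KL.loc Helper36.EV.main' Helper56.KL.cmp Helper32.KL.mol Helper83.KL.pr
    Helper5.KL.en Helper71.KL.lip

theorem rules : G_C1R := Helper62.KL.c1r

theorem weighted : G_WT := Helper5.KL.wt

/-- uniqueness -/
theorem unique : ∀ a b u v, IsGK a b u → IsGK a b v → u a = v a → ∀ t ∈ Icc a b, u t = v t :=
  (Helper65.KL.unq Helper62.KL.c1r Helper83.KL.pr Helper71.KL.lip).1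

/-- conservation of mass -/
theorem mass : ∀ a b u, IsGK a b u → ∀ t ∈ Icc a b, ∫ x, u t x ^ 2 = ∫ x, u a x ^ 2 :=
  (Helper65.KL.unq Helper62.KL.c1r Helper83.KL.pr Helper71.KL.lip).2.1

/-- conservation of energy -/
theorem energy : ∀ a b u, IsGK a b u → ∀ t ∈ Icc a b,
    (∫ x, iteratedDeriv 1 (u t) x ^ 2 / 2 - u t x ^ 6 / 6) =
      ∫ x, iteratedDeriv 1 (u a) x ^ 2 / 2 - u a x ^ 6 / 6 :=
  (Helper65.KL.unq Helper62.KL.c1r Helper83.KL.pr Helper71.KL.lip).2.2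

theorem Fun_eq_flux {u : ℝ → ℝ} (hu : u ∈ HI) :
    Fun u = fun x => - deriv (Pool.Agent.Helper33.KV.flux u) x := by
  have h1 : Pool.Agent.Helper33.KV.flux u = iteratedDeriv 2 u + u ^ 5 := rfl
  funext x
  have h2 : iteratedDeriv 1 (Pool.Agent.Helper33.KV.flux u) =
      iteratedDeriv 1 (iteratedDeriv 2 u) + iteratedDeriv 1 (u ^ 5) := by
    rw [h1]
    exact iter_add (iter_mem hu 2).1 (pow_mem hu 4).1 1
  rw [iteratedDeriv_one, iter_iter] at h2
  rw [h2]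
  change - iteratedDeriv 3 u x - iteratedDeriv 1 (u ^ 5) x =
    -(iteratedDeriv (1 + 2) u x + iteratedDeriv 1 (u ^ 5) x)
  norm_num
  ring

/-- solutions in the class `IsGK` are `SmoothSol` -/
theorem IsGK.smoothSol {a b : ℝ} {u : ℝ → ℝ → ℝ} (h : IsGK a b u) :
    Pool.Agent.Helper33.KV.SmoothSol u a b where
  hinf :=
    { smooth := fun t ht => (h.mem t ht).1
      cont := h.cont
      memLp := fun k t ht => (h.mem t ht).2 k
      bound := h.bdd }
  eqn := by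
    intro k t ht x
    have h1 := h.der k x t ht
    rwa [Fun_eq_flux (h.mem t ht)] at h1

/-- continuation under an `H¹` bound, in the class `SmoothSol` -/
theorem cont_smoothSol (a b K : ℝ) (u0 : ℝ → ℝ) (hab : a < b) (hu0 : ContDiff ℝ ∞ u0)
    (hu0' : ∀ k, MemLp (iteratedDeriv k u0) 2 volume)
    (hK : ∀ b' ∈ Ioc a b, ∀ u, Pool.Agent.Helper33.KV.SmoothSol u a b' → u a = u0 →
      ∀ t ∈ Icc a b', (∫ x, u t x ^ 2) + ∫ x, iteratedDeriv 1 (u t) x ^ 2 ≤ K) :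
    ∃ u, Pool.Agent.Helper33.KV.SmoothSol u a b ∧ u a = u0 := by
  obtain ⟨u, hu, hu'⟩ := cont a b K u0 hab ⟨hu0, hu0'⟩
    fun b' hb' u hu hua => hK b' hb' u hu.smoothSol hua
  exact ⟨u, hu.smoothSol, hu'⟩

/-- local existence in the class `SmoothSol`; the time depends only on the `H³` norm -/
theorem loc_smoothSol (Λ : ℝ) : ∃ τ > 0, ∀ u0 : ℝ → ℝ, ContDiff ℝ ∞ u0 →
    (∀ k, MemLp (iteratedDeriv k u0) 2 volume) →
    (∫ x, u0 x ^ 2) + (∫ x, iteratedDeriv 1 u0 x ^ 2) + (∫ x, iteratedDeriv 2 u0 x ^ 2)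
      + (∫ x, iteratedDeriv 3 u0 x ^ 2) ≤ Λ →
    ∀ a : ℝ, ∃ u, Pool.Agent.Helper33.KV.SmoothSol u a (a + τ) ∧ u a = u0 := by
  obtain ⟨τ, hτ, h⟩ := loc Λ
  refine ⟨τ, hτ, fun u0 h0 h1 h2 a => ?_⟩
  have h3 : BB 3 (⟨u0, h0, h1⟩ : X) ⟨u0, h0, h1⟩ ≤ Λ := by
    rw [BB_apply]
    refine le_trans (le_of_eq ?_) h2
    simp only [Finset.sum_range_succ, Finset.range_zero, Finset.sum_empty, iteratedDeriv_zero,
      zero_add, ← sq]
  obtain ⟨u, hu, hu'⟩ := h ⟨u0, h0, h1⟩ h3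
  have h4 := rules.2.2.2.1 0 τ a _ _ hu
  refine ⟨fun t => u (t - a), ?_, ?_⟩
  · have h5 : IsGK (0 + a) (τ + a) (fun t => u (t - a)) := h4
    rw [zero_add, add_comm] at h5
    exact h5.smoothSol
  · simp [hu']

end Pool.Agent.Helper36.KL
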